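import Mathlib
import Pool.Agent.H2.PC3

set_option autoImplicit false

namespace Pool.Agent.Results.MP_451483_gt.PathConn

open Cardinal

/-- closed in every Hausdorff group topology -/
def UncondClosed {G : Type} [AddCommGroup G] (X : Set G) : Prop :=
  ∀ t : TopologicalSpace G, @IsTopologicalAddGroup G t _ → @T2Space G t → @IsClosed G t X

/-- every proper unconditionally closed subgroup has index at least continuum -/
def IsMGroup (G : Type) [AddCommGroup G] : Prop :=
  ∀ H : AddSubgroup G, H ≠ ⊤ → UncondClosed (H : Set G) → Cardinal.continuum ≤ Cardinal.mk (G ⧸ H)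

/-- Every abelian M-group admits a pathwise connected Hausdorff group topology. -/
theorem result (G : Type) [AddCommGroup G] (h : IsMGroup G) :
    ∃ t : TopologicalSpace G, @IsTopologicalAddGroup G t _ ∧ @T2Space G t ∧
      @PathConnectedSpace G t := by
  refine H2.PC.final fun m ⟨x, hx⟩ => ?_
  let f : G →+ G := nsmulAddMonoidHom m
  have h1 : f.ker ≠ ⊤ := fun h0 => hx (AddMonoidHom.mem_ker.1 (h0.ge (AddSubgroup.mem_top x)))
  have h2 : UncondClosed (f.ker : Set G) := fun t _ _ =>
    isClosed_eq (continuous_nsmul m) continuous_const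
  exact (h _ h1 h2).trans_eq (mk_congr (QuotientAddGroup.quotientKerEquivRange f).toEquiv)

end Pool.Agent.Results.MP_451483_gt.PathConn
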